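import Mathlib

/-!
# Monochromatic tree covers of edge-coloured balanced complete bipartite graphs

We prove, for every number `r` of colours, `r` at least `2`, and every `n` at least `r!`, that
`2 r - 2 ≤ tc_r (K_{n,n}) ≤ 2 r - 1`.
-/

namespace Pool.Agent.Results.MP_6f811f_co.Balanced

open SimpleGraph

/-- `T` is a monochromatic tree of the graph `G` under the edge colouring `c`:
a subgraph which is a tree and all whose edges have the same colour
(a single vertex is allowed). -/
def IsMonoTree {V : Type} {G : SimpleGraph V} {r : ℕ} (c : G.edgeSet → Fin r)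
    (T : G.Subgraph) : Prop :=
  T.coe.IsTree ∧
    ∀ e (he : e ∈ T.edgeSet) f (hf : f ∈ T.edgeSet),
      c ⟨e, T.edgeSet_subset he⟩ = c ⟨f, T.edgeSet_subset hf⟩

/-- `k` monochromatic trees whose vertex sets together contain every vertex. -/
def Coverable {V : Type} {G : SimpleGraph V} {r : ℕ} (c : G.edgeSet → Fin r) (k : ℕ) : Prop :=
  ∃ T : Fin k → G.Subgraph, (∀ j, IsMonoTree c (T j)) ∧ ∀ v, ∃ j, v ∈ (T j).verts

/-- `t(G,c)`: the least number of monochromatic trees covering all the vertices of `G`. -/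
noncomputable def treeCover {V : Type} {G : SimpleGraph V} {r : ℕ} (c : G.edgeSet → Fin r) : ℕ :=
  sInf {k | Coverable c k}

/-- `tc_r(G)`: the maximum of `t(G,c)` over all `r`-edge-colourings `c` of `G`. -/
noncomputable def tc {V : Type} (r : ℕ) (G : SimpleGraph V) : ℕ :=
  sSup {m | ∃ c : G.edgeSet → Fin r, m = treeCover c}

/-! ### A Hall type lemma -/

lemma hall_lemma {r t : ℕ} (hr : 2 ≤ r) (ht : t + 3 ≤ 2 * r) (k : Fin t → Fin (r - 1))
    (i : Fin t → Fin r) (hk : Function.Surjective k) :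
    ∃ π : Fin (r - 1) ↪ Fin r, ∀ j, π (k j) ≠ i j := by
  classical
  -- number of stars in a row
  set s : Fin (r - 1) → ℕ := fun x => (Finset.univ.filter (fun j => k j = x)).card with hs
  have hs1 : ∀ x, 1 ≤ s x := by
    intro x
    obtain ⟨j, hj⟩ := hk x
    exact Finset.card_pos.mpr ⟨j, by simp [hj]⟩
  have hsum : ∑ x, s x = t := by
    have := Finset.card_eq_sum_card_fiberwise (f := k) (s := (Finset.univ : Finset (Fin t)))
      (t := (Finset.univ : Finset (Fin (r-1)))) (by intro x _; simp)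
    simpa [hs] using this.symm
  -- allowed values
  set A : Fin (r - 1) → Finset (Fin r) :=
    fun x => Finset.univ \ ((Finset.univ.filter (fun j => k j = x)).image i) with hA
  have hAcard : ∀ x, r ≤ (A x).card + s x := by
    intro x
    have h1 : ((Finset.univ.filter (fun j => k j = x)).image i).card ≤ s x :=
      Finset.card_image_le
    have h2 := Finset.card_sdiff_add_card_eq_card
      (Finset.subset_univ ((Finset.univ.filter (fun j => k j = x)).image i))
    simp only [Finset.card_univ, Fintype.card_fin] at h2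
    simp only [hA]
    omega
  have hall : ∀ S : Finset (Fin (r - 1)), S.card ≤ (S.biUnion A).card := by
    intro S
    rcases S.eq_empty_or_nonempty with rfl | hne
    · simp
    · obtain ⟨x0, hx0, hmin⟩ := Finset.exists_min_image S s hne
      have h1 : (A x0).card ≤ (S.biUnion A).card :=
        Finset.card_le_card (Finset.subset_biUnion_of_mem A hx0)
      have h2 : S.card * s x0 ≤ ∑ x ∈ S, s x := by
        have := Finset.card_nsmul_le_sum S s (s x0) (fun x hx => hmin x hx)
        simpa using this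
      have h3 : Sᶜ.card ≤ ∑ x ∈ Sᶜ, s x := by
        have := Finset.card_nsmul_le_sum Sᶜ s 1 (fun x _ => hs1 x)
        simpa using this
      have h4 : ∑ x ∈ S, s x + ∑ x ∈ Sᶜ, s x = t := by
        rw [Finset.sum_add_sum_compl, hsum]
      have h5 : S.card + Sᶜ.card = r - 1 := by
        rw [Finset.card_add_card_compl, Fintype.card_fin]
      have h6 := hAcard x0
      have hm : 1 ≤ S.card := hne.card_pos
      by_contra hlt
      push Not at hlt
      -- r - s < m
      have h7 : r < S.card + s x0 := by omega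
      obtain ⟨m, hm'⟩ : ∃ m, S.card = m + 1 := ⟨S.card - 1, by omega⟩
      obtain ⟨l, hl'⟩ : ∃ l, r = m + 1 + 1 + l := ⟨r - (m + 2), by omega⟩
      have h8 : l + 2 ≤ s x0 := by omega
      have h9 : (m + 1) * (l + 2) ≤ S.card * s x0 := by
        rw [hm']; exact Nat.mul_le_mul_left _ h8
      have h10 : (m + 1) * (l + 2) = m * l + 2 * m + l + 2 := by ring
      have h11 : Sᶜ.card = l := by omega
      have h12 : 0 ≤ m * l := Nat.zero_le _
      have h13 : m * l + 2 * m + l + 2 + l ≤ t := by
        calc m * l + 2 * m + l + 2 + l ≤ S.card * s x0 + Sᶜ.card := by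
              rw [h11, ← h10]; exact Nat.add_le_add_right h9 _
          _ ≤ t := by omega
      omega
  obtain ⟨f, hf, hf'⟩ := (Finset.all_card_le_biUnion_card_iff_exists_injective A).mp hall
  refine ⟨⟨f, hf⟩, fun j hj => ?_⟩
  have := hf' (k j)
  simp only [hA, Finset.mem_sdiff, Finset.mem_univ, true_and, Finset.mem_image,
    Finset.mem_filter, not_exists, not_and] at this
  exact this j rfl hj.symm


/-! ### The colouring -/

/-- The symmetric function on pairs of vertices behind the colouring. -/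
def colFun {n r : ℕ} (hr : 0 < r) (φ : Fin n → Fin (r - 1)) (ψ : Fin n → (Fin (r - 1) ↪ Fin r)) :
    (Fin n ⊕ Fin n) → (Fin n ⊕ Fin n) → Fin r
  | Sum.inl a, Sum.inr b => ψ b (φ a)
  | Sum.inr b, Sum.inl a => ψ b (φ a)
  | _, _ => ⟨0, hr⟩

lemma colFun_symm {n r : ℕ} (hr : 0 < r) (φ : Fin n → Fin (r - 1))
    (ψ : Fin n → (Fin (r - 1) ↪ Fin r)) (x y : Fin n ⊕ Fin n) :
    colFun hr φ ψ x y = colFun hr φ ψ y x := by
  cases x <;> cases y <;> rfl

/-- The edge colouring of `K_{n,n}`. -/
def col {n r : ℕ} (hr : 0 < r) (φ : Fin n → Fin (r - 1)) (ψ : Fin n → (Fin (r - 1) ↪ Fin r)) :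
    (completeBipartiteGraph (Fin n) (Fin n)).edgeSet → Fin r :=
  fun e => Sym2.lift ⟨colFun hr φ ψ, colFun_symm hr φ ψ⟩ e.1

lemma tree_star {n r : ℕ} (hr : 2 ≤ r) (φ : Fin n → Fin (r - 1))
    (ψ : Fin n → (Fin (r - 1) ↪ Fin r))
    (T : (completeBipartiteGraph (Fin n) (Fin n)).Subgraph)
    (hT : IsMonoTree (col (by omega) φ ψ) T) :
    ∃ (k : Fin (r - 1)) (i : Fin r), (∀ a, Sum.inl a ∈ T.verts → φ a = k) ∧
      (∀ b, Sum.inr b ∈ T.verts → ψ b k = i) := by
  classical
  obtain ⟨hconn, -⟩ := hT.1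
  obtain ⟨⟨v0, hv0⟩⟩ := hconn.nonempty
  have hpre := hconn.preconnected
  -- edges of `T` have the same colour
  have hedge : ∀ a b, T.Adj (Sum.inl a) (Sum.inr b) → ∀ a' b', T.Adj (Sum.inl a') (Sum.inr b') →
      ψ b (φ a) = ψ b' (φ a') := by
    intro a b hab a' b' hab'
    have := hT.2 s(Sum.inl a, Sum.inr b) hab s(Sum.inl a', Sum.inr b') hab'
    simpa [col, colFun] using this
  by_cases hA : ∃ a0, Sum.inl a0 ∈ T.verts
  · obtain ⟨a0, ha0⟩ := hA
    by_cases hE : ∃ a b, T.Adj (Sum.inl a) (Sum.inr b)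
    · obtain ⟨a1, b1, h11⟩ := hE
      set i := ψ b1 (φ a1) with hi
      have hi' : ∀ a b, T.Adj (Sum.inl a) (Sum.inr b) → ψ b (φ a) = i :=
        fun a b hab => hedge a b hab a1 b1 h11
      set k := φ a0 with hk
      -- the invariant
      have key : ∀ w : T.verts, (∀ a, (w : Fin n ⊕ Fin n) = Sum.inl a → φ a = k) ∧
          (∀ b, (w : Fin n ⊕ Fin n) = Sum.inr b → ψ b k = i) := by
        intro w
        obtain ⟨p⟩ := hpre ⟨Sum.inl a0, ha0⟩ w
        have : ∀ (x y : T.verts) (q : T.coe.Walk x y),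
            ((∀ a, (x : Fin n ⊕ Fin n) = Sum.inl a → φ a = k) ∧
              (∀ b, (x : Fin n ⊕ Fin n) = Sum.inr b → ψ b k = i)) →
            ((∀ a, (y : Fin n ⊕ Fin n) = Sum.inl a → φ a = k) ∧
              (∀ b, (y : Fin n ⊕ Fin n) = Sum.inr b → ψ b k = i)) := by
          intro x y q
          induction q with
          | nil => exact id
          | @cons u v w hadj q ih =>
            intro hu
            apply ih
            have hadj' : T.Adj (u : Fin n ⊕ Fin n) v := hadj
            obtain ⟨u, hu'⟩ := u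
            obtain ⟨v, hv'⟩ := v
            simp only at hadj' hu ⊢
            have hG := T.adj_sub hadj'
            rcases u with a | b <;> rcases v with a' | b'
            · simp at hG
            · refine ⟨by intro _ h; simp at h, ?_⟩
              intro b h
              simp only [Sum.inr.injEq] at h
              subst h
              rw [← hu.1 a rfl]
              exact hi' a b' hadj'
            · refine ⟨?_, by intro _ h; simp at h⟩
              intro a h
              simp only [Sum.inl.injEq] at h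
              subst h
              have h1 := hu.2 b rfl
              have h2 := hi' a' b hadj'.symm
              exact (ψ b).injective (h2.trans h1.symm)
            · simp at hG
        refine this _ _ p ⟨?_, ?_⟩
        · intro a h
          simp only [Sum.inl.injEq] at h
          rw [← h]
        · intro b h
          simp at h
      exact ⟨k, i, fun a ha => (key ⟨_, ha⟩).1 a rfl, fun b hb => (key ⟨_, hb⟩).2 b rfl⟩
    · push Not at hE
      -- no edges: the only vertex is `a0`
      have hsing : ∀ w : T.verts, (w : Fin n ⊕ Fin n) = Sum.inl a0 := by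
        intro w
        obtain ⟨p⟩ := hpre ⟨Sum.inl a0, ha0⟩ w
        cases p with
        | nil => rfl
        | @cons _ v _ hadj q =>
          exfalso
          have hadj' : T.Adj (Sum.inl a0) (v : Fin n ⊕ Fin n) := hadj
          obtain ⟨v, hv'⟩ := v
          have hG := T.adj_sub hadj'
          rcases v with a' | b'
          · simp at hG
          · exact hE _ _ hadj'
      refine ⟨φ a0, ⟨0, by omega⟩, ?_, ?_⟩
      · intro a ha
        have := hsing ⟨_, ha⟩
        simp only [Sum.inl.injEq] at this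
        rw [this]
      · intro b hb
        have := hsing ⟨_, hb⟩
        simp at this
  · push Not at hA
    rcases v0 with a | b0
    · exact absurd hv0 (hA a)
    have hsing : ∀ w : T.verts, (w : Fin n ⊕ Fin n) = Sum.inr b0 := by
      intro w
      obtain ⟨p⟩ := hpre ⟨Sum.inr b0, hv0⟩ w
      cases p with
      | nil => rfl
      | @cons _ v _ hadj q =>
        exfalso
        have hadj' : T.Adj (Sum.inr b0) (v : Fin n ⊕ Fin n) := hadj
        obtain ⟨v, hv'⟩ := v
        have hG := T.adj_sub hadj'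
        rcases v with a' | b'
        · exact hA a' hv'
        · simp at hG
    refine ⟨⟨0, by omega⟩, ψ b0 ⟨0, by omega⟩, ?_, ?_⟩
    · intro a ha
      exact absurd ha (hA a)
    · intro b hb
      have := hsing ⟨_, hb⟩
      simp only [Sum.inr.injEq] at this
      rw [this]

lemma lower {n r : ℕ} (hr : 2 ≤ r) (hn : r.factorial ≤ n) :
    ∃ c : (completeBipartiteGraph (Fin n) (Fin n)).edgeSet → Fin r,
      ∀ t, Coverable c t → 2 * r - 2 ≤ t := by
  classical
  have hcard : Fintype.card (Fin (r - 1) ↪ Fin r) = r.factorial := by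
    rw [Fintype.card_embedding_eq, Fintype.card_fin, Fintype.card_fin]
    obtain ⟨s, rfl⟩ : ∃ s, r = s + 1 := ⟨r - 1, by omega⟩
    have := Nat.factorial_mul_descFactorial (n := s + 1) (k := s) (by omega)
    simpa using this
  have hrn : r - 1 ≤ n := by
    have := Nat.self_le_factorial r
    omega
  obtain ⟨φ, hφ⟩ : ∃ φ : Fin n → Fin (r - 1), Function.Surjective φ := by
    have : Nonempty (Fin (r - 1)) := ⟨⟨0, by omega⟩⟩
    obtain ⟨f⟩ := Function.Embedding.nonempty_of_card_le (α := Fin (r-1)) (β := Fin n) (by simpa using hrn)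
    exact ⟨Function.invFun f, Function.invFun_surjective f.injective⟩
  obtain ⟨ψ, hψ⟩ : ∃ ψ : Fin n → (Fin (r - 1) ↪ Fin r), Function.Surjective ψ := by
    have : Nonempty (Fin (r - 1) ↪ Fin r) := by
      apply Fintype.card_pos_iff.mp
      rw [hcard]; exact Nat.factorial_pos r
    obtain ⟨f⟩ := Function.Embedding.nonempty_of_card_le (α := (Fin (r - 1) ↪ Fin r))
      (β := Fin n) (by rw [hcard]; simpa using hn)
    exact ⟨Function.invFun f, Function.invFun_surjective f.injective⟩
  refine ⟨col (by omega) φ ψ, ?_⟩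
  rintro t ⟨T, hT, hcov⟩
  by_contra hlt
  push Not at hlt
  choose k i h1 h2 using fun j => tree_star hr φ ψ (T j) (hT j)
  have hk : Function.Surjective k := by
    intro x
    obtain ⟨a, ha⟩ := hφ x
    obtain ⟨j, hj⟩ := hcov (Sum.inl a)
    exact ⟨j, by rw [← ha]; exact (h1 j a hj).symm⟩
  obtain ⟨π, hπ⟩ := hall_lemma hr (by omega) k i hk
  obtain ⟨b, hb⟩ := hψ π
  obtain ⟨j, hj⟩ := hcov (Sum.inr b)
  exact hπ j (by rw [← hb]; exact h2 j b hj)


/-! ### The upper bound -/

/-- The spanning subgraph of the edges of colour `i`. -/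
def colourGraph {V : Type} {G : SimpleGraph V} {r : ℕ} (c : G.edgeSet → Fin r) (i : Fin r) :
    SimpleGraph V where
  Adj x y := ∃ h : G.Adj x y, c ⟨s(x, y), h⟩ = i
  symm := ⟨by
    rintro x y ⟨h, hc⟩
    refine ⟨h.symm, ?_⟩
    rw [← hc]
    congr 2
    exact Sym2.eq_swap⟩
  loopless := ⟨by
    rintro x ⟨h, -⟩
    exact G.loopless.irrefl x h⟩

/-- Every component of the edges of colour `i` has a monochromatic spanning tree. -/
lemma exists_tree {V : Type} [Finite V] {G : SimpleGraph V} {r : ℕ} (c : G.edgeSet → Fin r)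
    (i : Fin r) (v : V) :
    ∃ T : G.Subgraph, IsMonoTree c T ∧ ∀ w, (colourGraph c i).Reachable v w → w ∈ T.verts := by
  classical
  set C := (colourGraph c i).connectedComponentMk v with hC
  obtain ⟨T', hT'le, hT'⟩ := (C.connected_toSimpleGraph).exists_isTree_le
  have hadj : ∀ x y : C, T'.Adj x y → (colourGraph c i).Adj (x : V) (y : V) := by
    intro x y h
    exact hT'le h
  let T : G.Subgraph :=
    { verts := C.supp
      Adj := fun x y => ∃ (hx : x ∈ C.supp) (hy : y ∈ C.supp), T'.Adj ⟨x, hx⟩ ⟨y, hy⟩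
      adj_sub := by
        rintro x y ⟨hx, hy, h⟩
        exact (hadj _ _ h).1
      edge_vert := by
        rintro x y ⟨hx, hy, h⟩
        exact hx
      symm := ⟨by
        rintro x y ⟨hx, hy, h⟩
        exact ⟨hy, hx, h.symm⟩⟩ }
  have hTcoe : T.coe = T' := by
    ext ⟨x, hx⟩ ⟨y, hy⟩
    constructor
    · rintro ⟨_, _, h⟩
      exact h
    · intro h
      exact ⟨hx, hy, h⟩
  refine ⟨T, ⟨by rw [hTcoe]; exact hT', ?_⟩, ?_⟩
  · have hcol : ∀ e (he : e ∈ T.edgeSet), c ⟨e, T.edgeSet_subset he⟩ = i := by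
      intro e
      induction e using Sym2.ind with
      | _ x y =>
        rintro ⟨hx, hy, h⟩
        exact (hadj _ _ h).2
    intro e he f hf
    rw [hcol e he, hcol f hf]
  · intro w hw
    exact SimpleGraph.ConnectedComponent.sound hw.symm

lemma coverable_of_family {V : Type} {G : SimpleGraph V} {r : ℕ} (c : G.edgeSet → Fin r)
    {ι : Type} [Fintype ι] (T : ι → G.Subgraph) (hT : ∀ j, IsMonoTree c (T j))
    (hcov : ∀ v, ∃ j, v ∈ (T j).verts) : Coverable c (Fintype.card ι) := by
  refine ⟨fun j => T ((Fintype.equivFin ι).symm j), fun j => hT _, fun v => ?_⟩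
  obtain ⟨j, hj⟩ := hcov v
  exact ⟨Fintype.equivFin ι j, by simpa using hj⟩

lemma upper {n r : ℕ} (hr : 1 ≤ r) (hn : 1 ≤ n)
    (c : (completeBipartiteGraph (Fin n) (Fin n)).edgeSet → Fin r) :
    Coverable c (2 * r - 1) := by
  classical
  let a0 : Fin n := ⟨0, by omega⟩
  have hab : ∀ a b : Fin n,
      (completeBipartiteGraph (Fin n) (Fin n)).Adj (Sum.inl a) (Sum.inr b) := by
    intro a b; simp
  set i0 : Fin r := c ⟨s(Sum.inl a0, Sum.inr a0), hab a0 a0⟩ with hi0
  choose T hT hTr using fun (p : Fin r × (Fin n ⊕ Fin n)) => exists_tree c p.1 p.2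
  let ι := {p : Fin r ⊕ Fin r // p ≠ Sum.inr i0}
  have hcard : Fintype.card ι = 2 * r - 1 := by
    have := Fintype.card_subtype_compl (fun p : Fin r ⊕ Fin r => p = Sum.inr i0)
    simp only [Fintype.card_sum, Fintype.card_fin, Fintype.card_subtype_eq] at this
    change Fintype.card {p : Fin r ⊕ Fin r // ¬ (p = Sum.inr i0)} = _
    rw [this]; omega
  rw [← hcard]
  refine coverable_of_family c
    (fun p : ι => match p.1 with
      | Sum.inl i => T (i, Sum.inl a0)
      | Sum.inr i => T (i, Sum.inr a0)) ?_ ?_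
  · rintro ⟨p | p, hp⟩
    · exact hT _
    · exact hT _
  · rintro (a | b)
    · -- a vertex on the left
      by_cases h : c ⟨s(Sum.inl a, Sum.inr a0), hab a a0⟩ = i0
      · refine ⟨⟨Sum.inl i0, by simp⟩, ?_⟩
        apply hTr (i0, Sum.inl a0)
        have h1 : (colourGraph c i0).Adj (Sum.inl a0) (Sum.inr a0) := ⟨hab _ _, rfl⟩
        have h2 : (colourGraph c i0).Adj (Sum.inl a) (Sum.inr a0) := ⟨hab _ _, h⟩
        exact h1.reachable.trans h2.symm.reachable
      · refine ⟨⟨Sum.inr (c ⟨s(Sum.inl a, Sum.inr a0), hab a a0⟩), by simpa using h⟩, ?_⟩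
        apply hTr (_, Sum.inr a0)
        have h2 : (colourGraph c (c ⟨s(Sum.inl a, Sum.inr a0), hab a a0⟩)).Adj
          (Sum.inl a) (Sum.inr a0) := ⟨hab _ _, rfl⟩
        exact h2.symm.reachable
    · refine ⟨⟨Sum.inl (c ⟨s(Sum.inl a0, Sum.inr b), hab a0 b⟩), by simp⟩, ?_⟩
      apply hTr (_, Sum.inl a0)
      have h2 : (colourGraph c (c ⟨s(Sum.inl a0, Sum.inr b), hab a0 b⟩)).Adj
          (Sum.inl a0) (Sum.inr b) := ⟨hab _ _, rfl⟩
      exact h2.reachable

/-- For every `r ≥ 2` and every `n ≥ r!`: `2 r - 2 ≤ tc_r (K_{n,n}) ≤ 2 r - 1`. -/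
theorem result (r n : ℕ) (hr : 2 ≤ r) (hn : r.factorial ≤ n) :
    2 * r - 2 ≤ tc r (completeBipartiteGraph (Fin n) (Fin n)) ∧
      tc r (completeBipartiteGraph (Fin n) (Fin n)) ≤ 2 * r - 1 := by
  have hn1 : 1 ≤ n := le_trans (Nat.factorial_pos r) hn
  have hup : ∀ c : (completeBipartiteGraph (Fin n) (Fin n)).edgeSet → Fin r,
      treeCover c ≤ 2 * r - 1 := fun c => Nat.sInf_le (upper (by omega) hn1 c)
  have hbdd : ∀ m ∈ {m | ∃ c : (completeBipartiteGraph (Fin n) (Fin n)).edgeSet → Fin r,
      m = treeCover c}, m ≤ 2 * r - 1 := by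
    rintro m ⟨c, rfl⟩
    exact hup c
  obtain ⟨c, hc⟩ := lower hr hn
  have hlow : 2 * r - 2 ≤ treeCover c := by
    have hne : {k | Coverable c k}.Nonempty := ⟨_, upper (by omega) hn1 c⟩
    exact hc _ (Nat.sInf_mem hne)
  exact ⟨hlow.trans (le_csSup ⟨_, hbdd⟩ ⟨c, rfl⟩), csSup_le ⟨_, c, rfl⟩ hbdd⟩

end Pool.Agent.Results.MP_6f811f_co.Balanced
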