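import Mathlib

set_option autoImplicit false

namespace Pool.Agent.Results.MP_6f811f_co.BalancedPrimePowers

open SimpleGraph Finset

/-- `T` is a monochromatic tree of `G` with respect to the edge colouring `c`: a subgraph which is a
tree (possibly a single vertex) and all of whose edges get the same colour. -/
def IsMonoTree {V K : Type} (G : SimpleGraph V) (c : Sym2 V → K) (T : G.Subgraph) : Prop :=
  T.coe.IsTree ∧ ∃ k : K, ∀ e ∈ T.edgeSet, c e = k

/-- The vertices of `G` can be covered by `t` monochromatic trees (trees may share vertices and may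
have different colours). -/
def Coverable {V K : Type} (G : SimpleGraph V) (c : Sym2 V → K) (t : ℕ) : Prop :=
  ∃ T : Fin t → G.Subgraph, (∀ i, IsMonoTree G c (T i)) ∧ ∀ v, ∃ i, v ∈ (T i).verts

/-- `t(G, c)`: the least number of monochromatic trees covering the vertices of `G`. -/
noncomputable def coverNumber {V K : Type} (G : SimpleGraph V) (c : Sym2 V → K) : ℕ :=
  sInf {t | Coverable G c t}

/-- `tc_r(G)`: the maximum of `t(G, c)` over all `r`-edge-colourings `c` of `G`. -/
noncomputable def tc (r : ℕ) {V : Type} (G : SimpleGraph V) : ℕ :=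
  sSup {t | ∃ c : Sym2 V → Fin r, coverNumber G c = t}

/-- The balanced complete bipartite graph `K_{n,n}`. -/
abbrev K (n : ℕ) : SimpleGraph (Fin n ⊕ Fin n) := completeBipartiteGraph (Fin n) (Fin n)

/-- A single vertex is a monochromatic tree, so the number of vertices is always enough. -/
theorem coverable_card {V K : Type} [Fintype V] [Nonempty K] (G : SimpleGraph V) (c : Sym2 V → K) :
    Coverable G c (Fintype.card V) := by
  classical
  refine ⟨fun i => G.singletonSubgraph ((Fintype.equivFin V).symm i), fun i => ⟨?_, ?_⟩, fun v => ?_⟩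
  · constructor
    · exact Subgraph.singletonSubgraph_connected.coe
    · intro v p hp
      have h1 := hp.1.1
      cases p with
      | nil => exact hp.1.ne_nil rfl
      | cons h q =>
        exact absurd h (by
          intro h
          simp at h)
  · refine ⟨Classical.arbitrary K, fun e he => ?_⟩
    simp at he
  · exact ⟨Fintype.equivFin V v, by simp⟩

/-- The colouring: the left vertex `a` has class `cl a`, the right vertex `b` carries an injection
`e b`, and the edge `ab` gets colour `e b (cl a)`. -/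
def col {n s : ℕ} (cl : Fin n → Fin s) (e : Fin n → Fin s ↪ Fin (s + 1)) :
    Sym2 (Fin n ⊕ Fin n) → Fin (s + 1) :=
  Sym2.lift ⟨fun x y => match x, y with
    | .inl a, .inr b => e b (cl a)
    | .inr b, .inl a => e b (cl a)
    | _, _ => 0, by rintro (a | a) (b | b) <;> rfl⟩

/-- Every monochromatic tree lies in a star-like class described by a pair `(i, k)`. -/
theorem tree_pair {n s : ℕ} (hs : 1 ≤ s) (cl : Fin n → Fin s) (e : Fin n → Fin s ↪ Fin (s + 1))
    (T : (K n).Subgraph) (hT : IsMonoTree (K n) (col cl e) T) :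
    ∃ p : Fin s × Fin (s + 1), (∀ a, Sum.inl a ∈ T.verts → cl a = p.1) ∧
      (∀ b, Sum.inr b ∈ T.verts → e b p.1 = p.2) := by
  obtain ⟨hTree, k, hk⟩ := hT
  by_cases hL : ∃ a, Sum.inl a ∈ T.verts
  · obtain ⟨a, ha⟩ := hL
    let Good : Fin n ⊕ Fin n → Prop := fun v => match v with
      | .inl a' => cl a' = cl a
      | .inr b => e b (cl a) = k
    have step : ∀ u v : T.verts, T.coe.Adj u v → Good u → Good v := by
      rintro ⟨u, hu⟩ ⟨v, hv⟩ huv hg
      rw [Subgraph.coe_adj] at huv
      simp only at huv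
      have hadj := T.adj_sub huv
      have hcol := hk s(u, v) (by simpa using huv)
      rcases u with x | x <;> rcases v with y | y
      · simp [K] at hadj
      · simp only [col, Sym2.lift_mk] at hcol
        simp only [Good] at hg ⊢
        rw [← hg]; exact hcol
      · simp only [col, Sym2.lift_mk] at hcol
        simp only [Good] at hg ⊢
        exact (e x).injective (hcol.trans hg.symm)
      · simp [K] at hadj
    have all : ∀ v : T.verts, Good v := by
      intro v
      obtain ⟨w⟩ := hTree.1.preconnected ⟨Sum.inl a, ha⟩ v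
      have h0 : Good (⟨Sum.inl a, ha⟩ : T.verts) := rfl
      have key : ∀ (u v : T.verts) (w : T.coe.Walk u v), Good u → Good v := by
        intro u v w
        induction w with
        | nil => exact fun h => h
        | cons h p ih => exact fun h0 => ih (step _ _ h h0)
      exact key _ _ w h0
    exact ⟨(cl a, k), fun a' ha' => all ⟨_, ha'⟩, fun b hb => all ⟨_, hb⟩⟩
  · push Not at hL
    obtain ⟨⟨v, hv⟩⟩ := hTree.1.nonempty
    rcases v with a | b
    · exact absurd hv (hL a)
    refine ⟨(⟨0, hs⟩, e b ⟨0, hs⟩), fun a ha => absurd ha (hL a), fun b' hb' => ?_⟩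
    obtain ⟨w⟩ := hTree.1.preconnected ⟨Sum.inr b, hv⟩ ⟨Sum.inr b', hb'⟩
    cases w with
    | nil => rfl
    | @cons _ x _ h p =>
      obtain ⟨x, hx⟩ := x
      rw [Subgraph.coe_adj] at h
      simp only at h
      have hadj := T.adj_sub h
      rcases x with y | y
      · exact absurd hx (hL y)
      · simp [K] at hadj

/-- A family `F` of injections `Fin s ↪ Fin (s+1)` is strong if every set of pairs meeting all rows
and the graphs of all members of `F` has at least `2 s` elements. -/
def Strong {s : ℕ} (F : Finset (Fin s ↪ Fin (s + 1))) : Prop :=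
  ∀ P : Finset (Fin s × Fin (s + 1)), (∀ i, ∃ k, (i, k) ∈ P) → (∀ f ∈ F, ∃ i, (i, f i) ∈ P) →
    2 * s ≤ P.card

theorem not_coverable {n s : ℕ} (hs : 1 ≤ s) (hsn : s ≤ n) (F : Finset (Fin s ↪ Fin (s + 1)))
    (hF : Strong F) (hFn : F.card ≤ n) :
    ∃ c : Sym2 (Fin n ⊕ Fin n) → Fin (s + 1), ∀ t, Coverable (K n) c t → 2 * s ≤ t := by
  classical
  -- the family is nonempty or not, in both cases there is a map whose range contains `F`
  have : ∃ e : Fin n → (Fin s ↪ Fin (s + 1)), ∀ f ∈ F, ∃ b, e b = f := by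
    have hc : Fintype.card F ≤ Fintype.card (Fin n) := by simpa using hFn
    obtain ⟨g⟩ := Function.Embedding.nonempty_of_card_le hc
    refine ⟨fun b => if h : ∃ f : F, g f = b then (h.choose : Fin s ↪ Fin (s + 1)) else
      ⟨Fin.castSucc, Fin.castSucc_injective s⟩, fun f hf => ⟨g ⟨f, hf⟩, ?_⟩⟩
    have h : ∃ f' : F, g f' = g ⟨f, hf⟩ := ⟨⟨f, hf⟩, rfl⟩
    simp only [h, dif_pos]
    have h2 := h.choose_spec
    have h3 := g.injective h2
    exact congrArg Subtype.val h3
  obtain ⟨e, he⟩ := this
  let cl : Fin n → Fin s := fun a => ⟨a % s, Nat.mod_lt _ hs⟩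
  have hcl : ∀ i : Fin s, ∃ a, cl a = i := fun i => ⟨⟨i, lt_of_lt_of_le i.2 hsn⟩, by
    apply Fin.ext
    simp [cl, Nat.mod_eq_of_lt i.2]⟩
  refine ⟨col cl e, fun t ⟨T, hT, hcov⟩ => ?_⟩
  choose p hp1 hp2 using fun j => tree_pair hs cl e (T j) (hT j)
  have h1 := hF (univ.image p) (fun i => by
      obtain ⟨a, ha⟩ := hcl i
      obtain ⟨j, hj⟩ := hcov (Sum.inl a)
      refine ⟨(p j).2, ?_⟩
      rw [mem_image]
      refine ⟨j, mem_univ _, ?_⟩
      rw [← ha, hp1 j a hj]) (fun π hπ => by
      obtain ⟨b, hb⟩ := he π hπ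
      obtain ⟨j, hj⟩ := hcov (Sum.inr b)
      refine ⟨(p j).1, ?_⟩
      rw [mem_image]
      refine ⟨j, mem_univ _, ?_⟩
      rw [← hb, hp2 j b hj])
  exact h1.trans (by simpa using (card_image_le (s := univ) (f := p)))

/-- The affine family over a field with `s + 1` elements is strong. -/
theorem strong_affine (𝔽 : Type) [Field 𝔽] [Fintype 𝔽] [DecidableEq 𝔽] {s : ℕ}
    (hq : Fintype.card 𝔽 = s + 1) :
    ∃ F : Finset (Fin s ↪ Fin (s + 1)), F.card ≤ (s + 1) * s ∧ Strong F := by
  classical
  have hu : Fintype.card 𝔽ˣ = s := by rw [Fintype.card_units, hq]; rfl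
  let κ : Fin s ≃ 𝔽ˣ := (Fintype.equivFinOfCardEq hu).symm
  let ι : Fin (s + 1) ≃ 𝔽 := (Fintype.equivFinOfCardEq hq).symm
  let g : 𝔽 × 𝔽ˣ → (Fin s ↪ Fin (s + 1)) := fun x =>
    ⟨fun k => ι.symm (((x.2⁻¹ : 𝔽ˣ) : 𝔽) * ((κ k : 𝔽) - x.1)), by
      intro k k' h
      have h1 := ι.symm.injective h
      have h2 := mul_left_cancel₀ (Units.ne_zero (x.2⁻¹)) h1
      have h3 : (κ k : 𝔽) = κ k' := by simpa using h2
      exact κ.injective (Units.ext h3)⟩
  refine ⟨univ.image g, ?_, ?_⟩
  · refine card_image_le.trans ?_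
    rw [card_univ, Fintype.card_prod, hq, hu]
  · intro P hP1 hP2
    by_contra hlt
    push Not at hlt
    let f : MvPolynomial (Fin 2) 𝔽 := ∏ p ∈ P, (MvPolynomial.C (κ p.1 : 𝔽)
      - MvPolynomial.C (ι p.2) * MvPolynomial.X 0 - MvPolynomial.X 1)
    have hdeg : f.totalDegree < (Fintype.card 𝔽 - 1) * Fintype.card (Fin 2) := by
      have h1 : f.totalDegree ≤ ∑ p ∈ P, 1 := by
        refine (MvPolynomial.totalDegree_finsetProd P _).trans (sum_le_sum fun p _ => ?_)
        refine (MvPolynomial.totalDegree_sub _ _).trans (max_le ?_ ?_)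
        · refine (MvPolynomial.totalDegree_sub _ _).trans (max_le ?_ ?_)
          · simp
          · refine (MvPolynomial.totalDegree_mul _ _).trans ?_
            simp
        · simp
      rw [hq, Fintype.card_fin]
      simp only [sum_const, smul_eq_mul, mul_one] at h1
      omega
    have hsum := MvPolynomial.sum_eval_eq_zero f hdeg
    have hev : ∀ x : Fin 2 → 𝔽, MvPolynomial.eval x f =
        ∏ p ∈ P, ((κ p.1 : 𝔽) - ι p.2 * x 0 - x 1) := by
      intro x
      simp [f]
    rw [Finset.sum_eq_single (0 : Fin 2 → 𝔽)] at hsum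
    · rw [hev] at hsum
      rw [Finset.prod_eq_zero_iff] at hsum
      obtain ⟨p, -, hp⟩ := hsum
      simp at hp
    · intro x _ hx
      rw [hev]
      rw [Finset.prod_eq_zero_iff]
      by_cases h0 : x 0 = 0
      · have h1 : x 1 ≠ 0 := by
          intro h1
          apply hx
          funext j
          fin_cases j
          · exact h0
          · exact h1
        obtain ⟨k, hk⟩ := hP1 (κ.symm (Units.mk0 (x 1) h1))
        refine ⟨_, hk, ?_⟩
        simp [h0]
      · obtain ⟨i, hi⟩ := hP2 (g (x 1, Units.mk0 (x 0) h0)) (mem_image_of_mem _ (mem_univ _))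
        refine ⟨_, hi, ?_⟩
        simp only [g, Function.Embedding.coeFn_mk, Equiv.apply_symm_apply, Units.val_inv_eq_inv_val,
          Units.val_mk0]
        field_simp
        ring
    · intro h
      exact absurd (mem_univ _) h

/-- One more colour: from a strong family of injections `Fin s ↪ Fin (s+1)` with `N` members one
gets a strong family of injections `Fin (s+1) ↪ Fin (s+2)` with at most `(s+1)(s+2)N` members. -/
theorem strong_succ {s : ℕ} (hs : 1 ≤ s) (F : Finset (Fin s ↪ Fin (s + 1))) (hF : Strong F) :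
    ∃ F' : Finset (Fin (s + 1) ↪ Fin (s + 1 + 1)),
      F'.card ≤ F.card * ((s + 1) * (s + 2)) ∧ Strong F' := by
  classical
  let ext : (Fin s ↪ Fin (s + 1)) × (Fin (s + 1) × Fin (s + 1 + 1)) →
      (Fin (s + 1) ↪ Fin (s + 1 + 1)) := fun x =>
    ⟨fun k => (finSuccEquiv' x.2.1 k).elim x.2.2 (fun j => x.2.2.succAbove (x.1 j)), by
      intro k k' h
      apply (finSuccEquiv' x.2.1).injective
      cases h1 : finSuccEquiv' x.2.1 k with
      | none =>
        cases h2 : finSuccEquiv' x.2.1 k' with
        | none => rfl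
        | some j' =>
          simp only [h1, h2, Option.elim] at h
          exact absurd h.symm (Fin.succAbove_ne _ _)
      | some j =>
        cases h2 : finSuccEquiv' x.2.1 k' with
        | none =>
          simp only [h1, h2, Option.elim] at h
          exact absurd h (Fin.succAbove_ne _ _)
        | some j' =>
          simp only [h1, h2, Option.elim] at h
          rw [x.1.injective (Fin.succAbove_right_injective h)]⟩
  have hext : ∀ x k, ext x k =
      (finSuccEquiv' x.2.1 k).elim x.2.2 (fun j => x.2.2.succAbove (x.1 j)) := fun _ _ => rfl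
  refine ⟨(F ×ˢ univ).image ext, ?_, ?_⟩
  · refine card_image_le.trans ?_
    rw [card_product, card_univ, Fintype.card_prod, Fintype.card_fin, Fintype.card_fin]
  · intro P hP1 hP2
    by_contra hlt
    push Not at hlt
    -- choose a row and a column
    have hrow : ∀ i : Fin (s + 1), s ≤ (P.filter fun p => p.1 ≠ i).card := by
      intro i
      have h1 : (univ.erase i : Finset (Fin (s + 1))) ⊆ (P.filter fun p => p.1 ≠ i).image Prod.fst := by
        intro j hj
        obtain ⟨k, hk⟩ := hP1 j
        exact mem_image.2 ⟨(j, k), mem_filter.2 ⟨hk, (mem_erase.1 hj).1⟩, rfl⟩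
      have h2 := (card_le_card h1).trans card_image_le
      rw [card_erase_of_mem (mem_univ _), card_univ, Fintype.card_fin] at h2
      omega
    have hsplit : ∀ i : Fin (s + 1), P.card = (P.filter fun p => p.1 = i).card +
        (P.filter fun p => p.1 ≠ i).card := fun i =>
      (card_filter_add_card_filter_not (s := P) (fun p => p.1 = i)).symm
    have key : ∃ i v, (i, v) ∉ P ∧ (P.filter fun p => p.1 ≠ i).card ≤ 2 * s - 1 := by
      by_cases hA : ∃ i, 2 ≤ (P.filter fun p => p.1 = i).card
      · obtain ⟨i, hi⟩ := hA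
        have h0 := hsplit i
        have h1 : ∃ v, (i, v) ∉ P := by
          by_contra hall
          push Not at hall
          have h2 : (univ.image fun v : Fin (s + 1 + 1) => (i, v)) ⊆
              P.filter fun p => p.1 = i := by
            intro p hp
            obtain ⟨v, -, rfl⟩ := mem_image.1 hp
            exact mem_filter.2 ⟨hall v, rfl⟩
          have h3 := card_le_card h2
          rw [card_image_of_injective _ (fun a b h => by simpa using h), card_univ,
            Fintype.card_fin] at h3
          have := hrow i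
          omega
        obtain ⟨v, hv⟩ := h1
        exact ⟨i, v, hv, by omega⟩
      · push Not at hA
        have h4 : P.card ≤ s + 1 := by
          rw [Finset.card_eq_sum_card_fiberwise (f := Prod.fst) (t := univ)
            (fun _ _ => mem_coe.2 (mem_univ _))]
          refine (sum_le_sum (g := fun _ => 1) fun i _ => ?_).trans (by simp)
          have := hA i
          omega
        have h1 : ∃ v, ((0 : Fin (s + 1)), v) ∉ P := by
          by_contra hall
          push Not at hall
          have h2 : (univ.image fun v : Fin (s + 1 + 1) => ((0 : Fin (s + 1)), v)) ⊆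
              P.filter fun p => p.1 = 0 := by
            intro p hp
            obtain ⟨v, -, rfl⟩ := mem_image.1 hp
            exact mem_filter.2 ⟨hall v, rfl⟩
          have h3 := card_le_card h2
          rw [card_image_of_injective _ (fun a b h => by simpa using h), card_univ,
            Fintype.card_fin] at h3
          have := hA 0
          omega
        obtain ⟨v, hv⟩ := h1
        refine ⟨0, v, hv, ?_⟩
        have h5 := hsplit 0
        have h6 : 1 ≤ (P.filter fun p => p.1 = (0 : Fin (s + 1))).card := by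
          obtain ⟨k, hk⟩ := hP1 0
          exact card_pos.2 ⟨(0, k), mem_filter.2 ⟨hk, rfl⟩⟩
        omega
    obtain ⟨i, v, hiv, hcard⟩ := key
    let g : Fin (s + 1) × Fin (s + 1 + 1) → Fin s × Fin (s + 1) := fun p =>
      ((finSuccEquiv' i p.1).getD ⟨0, hs⟩, (finSuccEquiv' v p.2).getD 0)
    have h7 := hF ((P.filter fun p => p.1 ≠ i).image g) (fun j => by
        obtain ⟨k, hk⟩ := hP1 (i.succAbove j)
        refine ⟨(g (i.succAbove j, k)).2, mem_image.2 ⟨(i.succAbove j, k),
          mem_filter.2 ⟨hk, Fin.succAbove_ne _ _⟩, ?_⟩⟩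
        simp [g]) (fun f hf => by
        obtain ⟨k, hk⟩ := hP2 (ext (f, (i, v))) (mem_image_of_mem _ (by simp [hf]))
        have hki : k ≠ i := by
          rintro rfl
          apply hiv
          have : ext (f, (k, v)) k = v := by
            rw [hext]
            simp
          rw [this] at hk
          exact hk
        obtain ⟨j, rfl⟩ := Fin.exists_succAbove_eq hki
        refine ⟨j, mem_image.2 ⟨_, mem_filter.2 ⟨hk, hki⟩, ?_⟩⟩
        rw [hext]
        simp [g])
    have h8 := h7.trans card_image_le
    omega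

/-- `N(q, d) = q (q - 1) · ∏_{j < d} (q + j)(q + j + 1)`. -/
theorem strong_all (q d : ℕ) (hq : IsPrimePow q) :
    ∃ s, q + d = s + 1 ∧ 1 ≤ s ∧ s ≤ q * (q - 1) * ∏ j ∈ range d, ((q + j) * (q + j + 1)) ∧
      ∃ F : Finset (Fin s ↪ Fin (s + 1)),
        F.card ≤ q * (q - 1) * ∏ j ∈ range d, ((q + j) * (q + j + 1)) ∧ Strong F := by
  classical
  induction d with
  | zero =>
    have h2 : 2 ≤ q := hq.two_le
    obtain ⟨s, rfl⟩ : ∃ s, q = s + 1 := ⟨q - 1, by omega⟩
    refine ⟨s, rfl, by omega, ?_, ?_⟩
    · simp only [range_zero, prod_empty, mul_one, Nat.add_sub_cancel]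
      nlinarith
    · obtain ⟨p, k, hp, hk, hpk⟩ := hq
      have : Fact p.Prime := ⟨hp.nat_prime⟩
      have : Fintype (GaloisField p k) := Fintype.ofFinite _
      have hc : Fintype.card (GaloisField p k) = s + 1 := by
        rw [← Nat.card_eq_fintype_card, GaloisField.card p k (by omega), hpk]
      obtain ⟨F, hF1, hF2⟩ := strong_affine (GaloisField p k) hc
      exact ⟨F, by simpa using hF1, hF2⟩
  | succ d ih =>
    obtain ⟨s, hs, hs1, hsN, F, hFN, hF⟩ := ih
    obtain ⟨F', hF'1, hF'2⟩ := strong_succ hs1 F hF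
    have e1 : (q + d) * (q + d + 1) = (s + 1) * (s + 2) := by rw [hs]
    refine ⟨s + 1, by omega, by omega, ?_, F', ?_, hF'2⟩
    · rw [prod_range_succ, e1, ← mul_assoc]
      generalize hN : q * (q - 1) * ∏ j ∈ range d, ((q + j) * (q + j + 1)) = N at hsN
      have h1 : 1 ≤ N := hs1.trans hsN
      have h2 : 1 * ((s + 1) * 1) ≤ N * ((s + 1) * (s + 2)) :=
        Nat.mul_le_mul h1 (Nat.mul_le_mul_left _ (by omega))
      simpa using h2
    · rw [prod_range_succ, e1, ← mul_assoc]
      exact hF'1.trans (Nat.mul_le_mul_right _ hFN)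

/-- Let `q` be a prime power and `d ≥ 0`. For `r = q + d` colours and every
`n ≥ q (q - 1) · ∏_{j < d} (q + j)(q + j + 1)`, some `r`-edge-colouring of the balanced complete
bipartite graph `K_{n,n}` has no cover by fewer than `2r - 2` monochromatic trees; in particular
`tc_r(K_{n,n}) ≥ 2r - 2`. For `d = 0` this says: `r` a prime power and `n ≥ r (r - 1)`. -/
theorem result (q d n : ℕ) (hq : IsPrimePow q)
    (hn : q * (q - 1) * ∏ j ∈ range d, ((q + j) * (q + j + 1)) ≤ n) :
    (∃ c : Sym2 (Fin n ⊕ Fin n) → Fin (q + d), ∀ t, Coverable (K n) c t → 2 * (q + d) - 2 ≤ t) ∧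
      2 * (q + d) - 2 ≤ tc (q + d) (K n) := by
  obtain ⟨s, hs, hs1, hsN, F, hFN, hF⟩ := strong_all q d hq
  rw [hs]
  have h2 : 2 * (s + 1) - 2 = 2 * s := by omega
  rw [h2]
  obtain ⟨c, hc⟩ := not_coverable hs1 (hsN.trans hn) F hF (hFN.trans hn)
  refine ⟨⟨c, hc⟩, ?_⟩
  have hle : 2 * s ≤ coverNumber (K n) c :=
    hc _ (Nat.sInf_mem (s := {t | Coverable (K n) c t}) ⟨_, coverable_card (K n) c⟩)
  refine hle.trans (le_csSup ⟨Fintype.card (Fin n ⊕ Fin n), ?_⟩ ⟨c, rfl⟩)
  rintro t ⟨c', rfl⟩
  exact Nat.sInf_le (coverable_card (K n) c')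

end Pool.Agent.Results.MP_6f811f_co.BalancedPrimePowers
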